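import Mathlib

/-!
# A quantitative fractional Helly theorem

For closed convex sets in an inner product space of dimension `m`: if all but a small fraction of the
`(m+1)`-tuples intersect, then some point lies in almost all sets. The proof is by compression: the
point of minimal norm of an intersection of `k ≥ m` sets is already the point of minimal norm of an
intersection of `m` of them.
-/

set_option autoImplicit false

open Finset Module

namespace Pool.Agent.T9h84.FH

variable {E : Type*} [NormedAddCommGroup E] [InnerProductSpace ℝ E]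

/-- `p` is a point of minimal norm of `S` -/
def IsMin (S : Set E) (p : E) : Prop := p ∈ S ∧ ∀ x ∈ S, ‖p‖ ≤ ‖x‖

lemma exists_isMin [FiniteDimensional ℝ E] {S : Set E} (hne : S.Nonempty) (hc : IsClosed S) :
    ∃ p, IsMin S p := by
  obtain ⟨p, hp, h⟩ := hc.exists_infDist_eq_dist hne 0
  refine ⟨p, hp, fun x hx => ?_⟩
  have := Metric.infDist_le_dist_of_mem hx (x := 0)
  rw [h] at this
  simpa using this

lemma IsMin.unique {S : Set E} (hconv : Convex ℝ S) {p q : E} (hp : IsMin S p) (hq : IsMin S q) :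
    p = q := by
  have h1 : ‖p‖ = ‖q‖ := le_antisymm (hp.2 q hq.1) (hq.2 p hp.1)
  have hm : (1 / 2 : ℝ) • p + (1 / 2 : ℝ) • q ∈ S :=
    hconv hp.1 hq.1 (by norm_num) (by norm_num) (by norm_num)
  have h2 := hp.2 _ hm
  have h3 : ‖p‖ ^ 2 ≤ ‖(1 / 2 : ℝ) • p + (1 / 2 : ℝ) • q‖ ^ 2 := by
    gcongr
  have h4 : ‖(1 / 2 : ℝ) • p + (1 / 2 : ℝ) • q‖ ^ 2
      = (‖p‖ ^ 2 + ‖q‖ ^ 2) / 2 - ‖p - q‖ ^ 2 / 4 := by
    rw [← smul_add, norm_smul, mul_pow]
    have h5 := parallelogram_law_with_norm ℝ p q
    have h6 : ‖(1 / 2 : ℝ)‖ = 1 / 2 := by norm_num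
    rw [h6]
    nlinarith
  rw [h4, h1] at h3
  have h5 : ‖p - q‖ ^ 2 ≤ 0 := by linarith
  have h6 : ‖p - q‖ = 0 := by
    have := sq_nonneg ‖p - q‖
    nlinarith [norm_nonneg (p - q)]
  exact sub_eq_zero.1 (norm_eq_zero.1 h6)

/-- compression: the minimal point of the intersection of `K` is the minimal point of the
intersection of `dim E` members of `K` -/
lemma exists_basis [FiniteDimensional ℝ E] {ι : Type*} [DecidableEq ι] {C : ι → Set E}
    (hconv : ∀ i, Convex ℝ (C i)) (hcl : ∀ i, IsClosed (C i)) {K : Finset ι}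
    (hK : finrank ℝ E ≤ #K) (hne : (⋂ i ∈ K, C i).Nonempty) :
    ∃ I ⊆ K, #I = finrank ℝ E ∧ ∃ p, IsMin (⋂ i ∈ I, C i) p ∧ p ∈ ⋂ i ∈ K, C i := by
  obtain ⟨p, hp⟩ := exists_isMin hne (isClosed_biInter fun i _ => hcl i)
  let F : Option ι → Set E := fun o => o.elim (Metric.ball 0 ‖p‖) C
  have hF : ∀ i ∈ insertNone K, Convex ℝ (F i) := by
    rintro (_ | i) _
    · exact convex_ball _ _
    · exact hconv i
  have hex : ∃ J ⊆ insertNone K, #J = finrank ℝ E + 1 ∧ ¬ (⋂ i ∈ J, F i).Nonempty := by
    by_contra! hcon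
    obtain ⟨x, hx⟩ := Convex.helly_theorem (𝕜 := ℝ) (F := F) (s := insertNone K)
      (by rw [card_insertNone]; omega) hF (fun I hI hI' => hcon I hI hI')
    simp only [Set.mem_iInter] at hx
    have h1 : x ∈ Metric.ball (0 : E) ‖p‖ := hx none (by simp)
    have h2 : x ∈ ⋂ i ∈ K, C i := by
      simp only [Set.mem_iInter]
      intro i hi
      exact hx (some i) (by simpa using hi)
    have h3 := hp.2 x h2
    rw [mem_ball_zero_iff] at h1
    linarith
  obtain ⟨J, hJ, hJc, hJe⟩ := hex
  have hIK : eraseNone J ⊆ K := by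
    intro i hi
    rw [mem_eraseNone] at hi
    simpa using hJ hi
  have hpK : ∀ i ∈ K, p ∈ C i := by
    have := hp.1
    simpa only [Set.mem_iInter] using this
  have hnone : none ∈ J := by
    by_contra hn
    apply hJe
    refine ⟨p, ?_⟩
    simp only [Set.mem_iInter]
    rintro (_ | i) hi
    · exact absurd hi hn
    · exact hpK i (by simpa using hJ hi)
  refine ⟨eraseNone J, hIK, ?_, p, ⟨?_, ?_⟩, hp.1⟩
  · have h1 : insertNone (eraseNone J) = J := by
      rw [insertNone_eraseNone]
      exact insert_eq_self.2 hnone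
    have h2 : #(insertNone (eraseNone J)) = #(eraseNone J) + 1 := card_insertNone _
    rw [h1] at h2
    omega
  · simp only [Set.mem_iInter]
    exact fun i hi => hpK i (hIK hi)
  · intro x hx
    by_contra hlt
    push Not at hlt
    apply hJe
    refine ⟨x, ?_⟩
    simp only [Set.mem_iInter] at hx ⊢
    rintro (_ | i) hi
    · change x ∈ Metric.ball (0 : E) ‖p‖
      rwa [mem_ball_zero_iff]
    · exact hx i (by rwa [mem_eraseNone])

/-- `C(D, r) M^r ≤ C(M, r) D^r` for `D ≤ M` -/
lemma choose_mul_pow_le {D M : ℕ} (h : D ≤ M) (r : ℕ) :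
    D.choose r * M ^ r ≤ M.choose r * D ^ r := by
  have key : D.descFactorial r * M ^ r ≤ M.descFactorial r * D ^ r := by
    induction r with
    | zero => simp
    | succ r ih =>
      rw [Nat.descFactorial_succ, Nat.descFactorial_succ, pow_succ, pow_succ]
      have h1 : (D - r) * M ≤ (M - r) * D := by
        rcases Nat.lt_or_ge r D with hr | hr
        · obtain ⟨a, rfl⟩ := Nat.exists_eq_add_of_lt hr
          obtain ⟨b, rfl⟩ := Nat.exists_eq_add_of_le h
          have e1 : r + a + 1 - r = a + 1 := by omega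
          have e2 : r + a + 1 + b - r = a + 1 + b := by omega
          rw [e1, e2]
          nlinarith
        · simp [Nat.sub_eq_zero_of_le hr]
      calc (D - r) * D.descFactorial r * (M ^ r * M)
          = ((D - r) * M) * (D.descFactorial r * M ^ r) := by ring
        _ ≤ ((M - r) * D) * (M.descFactorial r * D ^ r) := Nat.mul_le_mul h1 ih
        _ = (M - r) * M.descFactorial r * (D ^ r * D) := by ring
  rw [Nat.descFactorial_eq_factorial_mul_choose, Nat.descFactorial_eq_factorial_mul_choose] at key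
  have h2 : r.factorial * (D.choose r * M ^ r) ≤ r.factorial * (M.choose r * D ^ r) := by
    calc r.factorial * (D.choose r * M ^ r) = r.factorial * D.choose r * M ^ r := by ring
      _ ≤ r.factorial * M.choose r * D ^ r := key
      _ = r.factorial * (M.choose r * D ^ r) := by ring
  exact Nat.le_of_mul_le_mul_left h2 (Nat.factorial_pos r)

open Classical in
/-- Counting form of the fractional Helly theorem. -/
lemma counting [FiniteDimensional ℝ E] {ι : Type*} {C : ι → Set E}
    (hconv : ∀ i, Convex ℝ (C i)) (hcl : ∀ i, IsClosed (C i)) (s : Finset ι) (k b : ℕ)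
    (hk : finrank ℝ E + 1 ≤ k) (hkn : k ≤ #s)
    (hb : #((s.powersetCard (finrank ℝ E + 1)).filter (fun J => ¬ (⋂ i ∈ J, C i).Nonempty)) ≤ b)
    (hb2 : 2 * b * k.choose (finrank ℝ E + 1) ≤ (#s).choose (finrank ℝ E + 1)) :
    ∃ p : E, (#s - finrank ℝ E) ^ (k - finrank ℝ E) ≤
      2 * k.choose (finrank ℝ E) *
        (#(s.filter (fun i => p ∈ C i)) - finrank ℝ E) ^ (k - finrank ℝ E) := by
  set m := finrank ℝ E with hm
  set n := #s with hn
  -- the canonical points
  have hex : ∀ I : Finset ι, ∃ p : E, (⋂ i ∈ I, C i).Nonempty → IsMin (⋂ i ∈ I, C i) p := by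
    intro I
    by_cases h : (⋂ i ∈ I, C i).Nonempty
    · obtain ⟨p, hp⟩ := exists_isMin h (isClosed_biInter fun i _ => hcl i)
      exact ⟨p, fun _ => hp⟩
    · exact ⟨0, fun h' => absurd h' h⟩
  choose q hq using hex
  let T : Finset ι → Finset ι := fun I =>
    if (⋂ i ∈ I, C i).Nonempty then (s \ I).filter (fun j => q I ∈ C j) else ∅
  -- choose the best `I`
  have hmn : m ≤ n := by omega
  have hne : (s.powersetCard m).Nonempty := powersetCard_nonempty.2 hmn
  obtain ⟨I₀, hI₀, hmax⟩ := exists_max_image (s.powersetCard m) (fun I => #(T I)) hne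
  set D := #(T I₀) with hD
  let Gd := (s.powersetCard k).filter (fun K => (⋂ i ∈ K, C i).Nonempty)
  let Bd := (s.powersetCard k).filter (fun K => ¬ (⋂ i ∈ K, C i).Nonempty)
  let Bd' := (s.powersetCard (m + 1)).filter (fun J => ¬ (⋂ i ∈ J, C i).Nonempty)
  have hgood : #(Gd) ≤ n.choose m * D.choose (k - m) := by
    have hsub : Gd ⊆ (s.powersetCard m).biUnion
        (fun I => ((T I).powersetCard (k - m)).image (fun J => I ∪ J)) := by
      intro K hK
      obtain ⟨hK1, hK2⟩ := mem_filter.1 hK
      obtain ⟨hKs, hKc⟩ := mem_powersetCard.1 hK1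
      obtain ⟨I, hIK, hIc, p, hp, hpK⟩ := exists_basis hconv hcl (K := K) (by omega) hK2
      have hIne : (⋂ i ∈ I, C i).Nonempty := ⟨p, hp.1⟩
      have hqp : q I = p := by
        refine IsMin.unique ?_ (hq I hIne) hp
        exact convex_iInter₂ fun i _ => hconv i
      rw [mem_biUnion]
      refine ⟨I, mem_powersetCard.2 ⟨hIK.trans hKs, hIc⟩, ?_⟩
      rw [mem_image]
      refine ⟨K \ I, mem_powersetCard.2 ⟨?_, ?_⟩, ?_⟩
      · intro j hj
        rw [mem_sdiff] at hj
        simp only [T, if_pos hIne]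
        rw [mem_filter, mem_sdiff]
        refine ⟨⟨hKs hj.1, hj.2⟩, ?_⟩
        rw [hqp]
        simp only [Set.mem_iInter] at hpK
        exact hpK j hj.1
      · rw [card_sdiff_of_subset hIK, hKc, hIc]
      · exact union_sdiff_of_subset hIK
    calc #(Gd) ≤ _ := card_le_card hsub
      _ ≤ ∑ I ∈ s.powersetCard m, #(((T I).powersetCard (k - m)).image (fun J => I ∪ J)) :=
        card_biUnion_le
      _ ≤ ∑ I ∈ s.powersetCard m, D.choose (k - m) := by
        refine sum_le_sum fun I hI => ?_
        refine card_image_le.trans ?_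
        rw [card_powersetCard]
        exact Nat.choose_le_choose _ (hmax I hI)
      _ = n.choose m * D.choose (k - m) := by
        rw [sum_const, card_powersetCard, smul_eq_mul]
  have hbad : #(Bd) ≤ b * (n - (m + 1)).choose (k - (m + 1)) := by
    have hsub : Bd ⊆ Bd'.biUnion
        (fun J => ((s \ J).powersetCard (k - (m + 1))).image (fun L => J ∪ L)) := by
      intro K hK
      obtain ⟨hK1, hK2⟩ := mem_filter.1 hK
      obtain ⟨hKs, hKc⟩ := mem_powersetCard.1 hK1
      have hexJ : ∃ J ⊆ K, #J = m + 1 ∧ ¬ (⋂ i ∈ J, C i).Nonempty := by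
        by_contra! hcon
        exact hK2 (Convex.helly_theorem (𝕜 := ℝ) (F := C) (s := K) (by omega)
          (fun i _ => hconv i) (fun I hI hI' => hcon I hI hI'))
      obtain ⟨J, hJK, hJc, hJe⟩ := hexJ
      rw [mem_biUnion]
      refine ⟨J, mem_filter.2 ⟨mem_powersetCard.2 ⟨hJK.trans hKs, hJc⟩, hJe⟩, ?_⟩
      rw [mem_image]
      refine ⟨K \ J, mem_powersetCard.2 ⟨?_, ?_⟩, union_sdiff_of_subset hJK⟩
      · exact sdiff_subset_sdiff hKs (Subset.refl _)
      · rw [card_sdiff_of_subset hJK, hKc, hJc]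
    calc #(Bd) ≤ _ := card_le_card hsub
      _ ≤ ∑ J ∈ Bd', #(((s \ J).powersetCard (k - (m + 1))).image (fun L => J ∪ L)) :=
        card_biUnion_le
      _ ≤ ∑ J ∈ Bd', (n - (m + 1)).choose (k - (m + 1)) := by
        refine sum_le_sum fun J hJ => ?_
        refine card_image_le.trans ?_
        obtain ⟨hJs, hJc⟩ := mem_powersetCard.1 (mem_filter.1 hJ).1
        rw [card_powersetCard, card_sdiff_of_subset hJs, hJc]
      _ = #(Bd') * (n - (m + 1)).choose (k - (m + 1)) := by
        rw [sum_const, smul_eq_mul]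
      _ ≤ b * (n - (m + 1)).choose (k - (m + 1)) := Nat.mul_le_mul_right _ hb
  have htot : #(Gd) + #(Bd) = n.choose k := by
    rw [← card_powersetCard k s]
    exact card_filter_add_card_filter_not _
  -- at most half of the `k`-sets are Bd
  have e1 : n.choose k * k.choose (m + 1) = n.choose (m + 1) * (n - (m + 1)).choose (k - (m + 1)) :=
    Nat.choose_mul hk
  have e2 : n.choose k * k.choose m = n.choose m * (n - m).choose (k - m) :=
    Nat.choose_mul (by omega)
  have hbad2 : 2 * #(Bd) ≤ n.choose k := by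
    have hpos : 0 < k.choose (m + 1) := Nat.choose_pos hk
    have h1 : 2 * #(Bd) * k.choose (m + 1) ≤ n.choose k * k.choose (m + 1) := by
      calc 2 * #(Bd) * k.choose (m + 1)
          ≤ 2 * (b * (n - (m + 1)).choose (k - (m + 1))) * k.choose (m + 1) := by gcongr
        _ = (2 * b * k.choose (m + 1)) * (n - (m + 1)).choose (k - (m + 1)) := by ring
        _ ≤ n.choose (m + 1) * (n - (m + 1)).choose (k - (m + 1)) := by gcongr
        _ = n.choose k * k.choose (m + 1) := e1.symm
    exact Nat.le_of_mul_le_mul_right h1 hpos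
  have h3 : n.choose k ≤ 2 * (n.choose m * D.choose (k - m)) := by omega
  have hDn : D ≤ n - m := by
    rw [hD]
    simp only [T]
    split_ifs
    · refine (card_filter_le _ _).trans ?_
      obtain ⟨h1, h2⟩ := mem_powersetCard.1 hI₀
      rw [card_sdiff_of_subset h1, h2]
    · simp
  have h4 := choose_mul_pow_le hDn (k - m)
  have hpos : 0 < n.choose k := Nat.choose_pos hkn
  have h5 : n.choose k * (n - m) ^ (k - m) ≤ n.choose k * (2 * k.choose m * D ^ (k - m)) := by
    calc n.choose k * (n - m) ^ (k - m)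
        ≤ 2 * (n.choose m * D.choose (k - m)) * (n - m) ^ (k - m) := by gcongr
      _ = 2 * n.choose m * (D.choose (k - m) * (n - m) ^ (k - m)) := by ring
      _ ≤ 2 * n.choose m * ((n - m).choose (k - m) * D ^ (k - m)) := by gcongr
      _ = 2 * (n.choose m * (n - m).choose (k - m)) * D ^ (k - m) := by ring
      _ = 2 * (n.choose k * k.choose m) * D ^ (k - m) := by rw [e2]
      _ = n.choose k * (2 * k.choose m * D ^ (k - m)) := by ring
  have h6 := Nat.le_of_mul_le_mul_left h5 hpos
  refine ⟨q I₀, h6.trans ?_⟩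
  gcongr
  -- `D + m ≤` number of sets containing the point
  have hDpos : D ≠ 0 := by
    intro h0
    rw [h0, zero_pow (by omega), mul_zero] at h6
    have : 0 < (n - m) ^ (k - m) := Nat.pow_pos (by omega)
    omega
  have hIne : (⋂ i ∈ I₀, C i).Nonempty := by
    by_contra hcon
    apply hDpos
    rw [hD]
    simp only [T, if_neg hcon, card_empty]
  have hsub : I₀ ∪ T I₀ ⊆ s.filter (fun i => q I₀ ∈ C i) := by
    intro i hi
    obtain ⟨h1, h2⟩ := mem_powersetCard.1 hI₀
    rw [mem_union] at hi
    rcases hi with hi | hi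
    · rw [mem_filter]
      refine ⟨h1 hi, ?_⟩
      have := (hq I₀ hIne).1
      simp only [Set.mem_iInter] at this
      exact this i hi
    · simp only [T, if_pos hIne] at hi
      rw [mem_filter, mem_sdiff] at hi
      rw [mem_filter]
      exact ⟨hi.1.1, hi.2⟩
  have hdisj : Disjoint I₀ (T I₀) := by
    rw [Finset.disjoint_left]
    intro i hi hi'
    simp only [T, if_pos hIne] at hi'
    rw [mem_filter, mem_sdiff] at hi'
    exact hi'.1.2 hi
  have h7 := card_le_card hsub
  rw [card_union_of_disjoint hdisj, (mem_powersetCard.1 hI₀).2, ← hD] at h7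
  omega

open Classical in
/-- A quantitative fractional Helly theorem. If the number of non-intersecting `(m+1)`-tuples, `m`
being the dimension, is at most `ε` times the number of all of them and `2 ε C(k, m+1) ≤ 1`, then
some point lies in all but `(m log k + log 2) / (k - m) · n` sets. -/
theorem frac_helly [FiniteDimensional ℝ E] {ι : Type*} {C : ι → Set E}
    (hconv : ∀ i, Convex ℝ (C i)) (hcl : ∀ i, IsClosed (C i)) (s : Finset ι) (k : ℕ) (ε : ℝ)
    (hk : finrank ℝ E + 1 ≤ k) (hs : finrank ℝ E + 1 ≤ #s)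
    (hb : (#((s.powersetCard (finrank ℝ E + 1)).filter
      (fun J => ¬ (⋂ i ∈ J, C i).Nonempty)) : ℝ) ≤ ε * (#s).choose (finrank ℝ E + 1))
    (hε : 2 * ε * k.choose (finrank ℝ E + 1) ≤ 1) :
    ∃ p : E, (#(s.filter (fun i => p ∉ C i)) : ℝ) ≤
      (finrank ℝ E * Real.log k + Real.log 2) / (k - finrank ℝ E) * #s := by
  set m := finrank ℝ E with hm
  set n := #s with hn
  have hkm : (0 : ℝ) < (k : ℝ) - m := by
    have : (m : ℝ) + 1 ≤ k := by exact_mod_cast hk
    linarith
  have hk1 : (1 : ℝ) ≤ k := by exact_mod_cast (by omega : 1 ≤ k)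
  have hlogk : 0 ≤ Real.log k := Real.log_nonneg hk1
  have hx0 : 0 ≤ (m * Real.log k + Real.log 2) / (k - m) := by
    have := Real.log_nonneg (show (1 : ℝ) ≤ 2 by norm_num)
    positivity
  rcases Nat.lt_or_ge n k with hnk | hnk
  · -- few sets: all of them intersect
    have hb0 : #((s.powersetCard (m + 1)).filter (fun J => ¬ (⋂ i ∈ J, C i).Nonempty)) = 0 := by
      by_contra h0
      have h1 : (1 : ℝ) ≤ #((s.powersetCard (m + 1)).filter
          (fun J => ¬ (⋂ i ∈ J, C i).Nonempty)) := by
        exact_mod_cast Nat.one_le_iff_ne_zero.2 h0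
      have h2 : (n.choose (m + 1) : ℝ) ≤ k.choose (m + 1) := by
        exact_mod_cast Nat.choose_le_choose _ hnk.le
      have h3 : 0 < ε := by
        by_contra h3
        push Not at h3
        have : ε * (n.choose (m + 1) : ℝ) ≤ 0 := mul_nonpos_of_nonpos_of_nonneg h3 (by positivity)
        linarith
      have h4 : ε * (n.choose (m + 1) : ℝ) ≤ ε * (k.choose (m + 1) : ℝ) := by gcongr
      linarith
    have hall : (⋂ i ∈ s, C i).Nonempty := by
      refine Convex.helly_theorem (𝕜 := ℝ) hs (fun i _ => hconv i) ?_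
      intro I hI hIc
      by_contra hcon
      have : I ∈ (s.powersetCard (m + 1)).filter (fun J => ¬ (⋂ i ∈ J, C i).Nonempty) :=
        mem_filter.2 ⟨mem_powersetCard.2 ⟨hI, hIc⟩, hcon⟩
      rw [card_eq_zero] at hb0
      rw [hb0] at this
      simp at this
    obtain ⟨p, hp⟩ := hall
    refine ⟨p, ?_⟩
    have : s.filter (fun i => p ∉ C i) = ∅ := by
      rw [filter_eq_empty_iff]
      intro i hi
      simp only [Set.mem_iInter] at hp
      exact not_not.2 (hp i hi)
    rw [this]
    simp only [card_empty, Nat.cast_zero]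
    positivity
  · set b := #((s.powersetCard (m + 1)).filter (fun J => ¬ (⋂ i ∈ J, C i).Nonempty)) with hbdef
    have hb2 : 2 * b * k.choose (m + 1) ≤ n.choose (m + 1) := by
      have h1 : (2 * b * k.choose (m + 1) : ℝ) ≤ n.choose (m + 1) := by
        calc (2 * b * k.choose (m + 1) : ℝ)
            ≤ 2 * (ε * n.choose (m + 1)) * k.choose (m + 1) := by gcongr
          _ = (2 * ε * k.choose (m + 1)) * n.choose (m + 1) := by ring
          _ ≤ 1 * n.choose (m + 1) := by gcongr
          _ = n.choose (m + 1) := one_mul _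
      exact_mod_cast h1
    obtain ⟨p, hp⟩ := counting hconv hcl s k b hk hnk le_rfl hb2
    refine ⟨p, ?_⟩
    set c := #(s.filter (fun i => p ∈ C i)) with hc
    have hcn : c + #(s.filter (fun i => p ∉ C i)) = n := by
      rw [hc, hn]
      exact card_filter_add_card_filter_not _
    have hcle : (#(s.filter (fun i => p ∉ C i)) : ℝ) = n - c := by
      have : (c : ℝ) + #(s.filter (fun i => p ∉ C i)) = n := by exact_mod_cast hcn
      linarith
    rw [hcle]
    set x := (m * Real.log k + Real.log 2) / (k - m) with hx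
    by_contra hlt
    push Not at hlt
    -- now `c < (1 - x) n`
    have hmn : m < n := by omega
    have hnm : (0 : ℝ) < (n : ℝ) - m := by
      have : (m : ℝ) < n := by exact_mod_cast hmn
      linarith
    have hcm : m ≤ c := by
      by_contra hcm
      push Not at hcm
      have h0 : c - m = 0 := by omega
      have hr : k - m ≠ 0 := by omega
      change (n - m) ^ (k - m) ≤ 2 * k.choose m * (c - m) ^ (k - m) at hp
      rw [h0, zero_pow hr, mul_zero] at hp
      have : 0 < (n - m) ^ (k - m) := Nat.pow_pos (by omega)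
      omega
    have hx1 : x < 1 := by
      by_contra hx1
      push Not at hx1
      have h1 : (n : ℝ) ≤ x * n := by
        have : (0 : ℝ) ≤ n := Nat.cast_nonneg n
        nlinarith
      have h2 : (0 : ℝ) ≤ c := Nat.cast_nonneg c
      linarith
    have hp' : ((n : ℝ) - m) ^ (k - m) ≤ 2 * k.choose m * ((c : ℝ) - m) ^ (k - m) := by
      have h1 : (((n - m : ℕ) : ℝ)) ^ (k - m) ≤ 2 * k.choose m * (((c - m : ℕ) : ℝ)) ^ (k - m) := by
        exact_mod_cast hp
      rwa [Nat.cast_sub hmn.le, Nat.cast_sub hcm] at h1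
    have hcb : (c : ℝ) - m < (1 - x) * ((n : ℝ) - m) := by
      have : (0 : ℝ) ≤ m := Nat.cast_nonneg m
      nlinarith
    have hcm' : (0 : ℝ) ≤ (c : ℝ) - m := by
      have : (m : ℝ) ≤ c := by exact_mod_cast hcm
      linarith
    have hr : k - m ≠ 0 := by omega
    have h1 : ((c : ℝ) - m) ^ (k - m) < ((1 - x) * ((n : ℝ) - m)) ^ (k - m) :=
      pow_lt_pow_left₀ hcb hcm' hr
    have h2 : (1 - x) ^ (k - m) ≤ Real.exp (-(m * Real.log k + Real.log 2)) := by
      have h3 : 1 - x ≤ Real.exp (-x) := by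
        have := Real.add_one_le_exp (-x)
        linarith
      calc (1 - x) ^ (k - m) ≤ (Real.exp (-x)) ^ (k - m) :=
            pow_le_pow_left₀ (by linarith) h3 _
        _ = Real.exp ((k - m : ℕ) * (-x)) := by rw [← Real.exp_nat_mul]
        _ = Real.exp (-(m * Real.log k + Real.log 2)) := by
          congr 1
          rw [Nat.cast_sub (by omega), hx]
          field_simp
    have h3 : Real.exp (-(m * Real.log k + Real.log 2)) = ((k : ℝ) ^ m * 2)⁻¹ := by
      rw [Real.exp_neg, Real.exp_add, Real.exp_log (by norm_num), Real.exp_nat_mul,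
        Real.exp_log (by linarith)]
    have h4 : (k.choose m : ℝ) ≤ (k : ℝ) ^ m := by
      exact_mod_cast Nat.choose_le_pow k m
    have hkm0 : (0 : ℝ) < k.choose m := by
      exact_mod_cast Nat.choose_pos (by omega : m ≤ k)
    have h5 : ((n : ℝ) - m) ^ (k - m) < ((n : ℝ) - m) ^ (k - m) := by
      calc ((n : ℝ) - m) ^ (k - m) ≤ 2 * k.choose m * ((c : ℝ) - m) ^ (k - m) := hp'
        _ < 2 * k.choose m * ((1 - x) * ((n : ℝ) - m)) ^ (k - m) := by gcongr
        _ = 2 * k.choose m * (1 - x) ^ (k - m) * ((n : ℝ) - m) ^ (k - m) := by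
          rw [mul_pow]; ring
        _ ≤ 2 * k.choose m * ((k : ℝ) ^ m * 2)⁻¹ * ((n : ℝ) - m) ^ (k - m) := by
          rw [← h3]; gcongr
        _ ≤ 1 * ((n : ℝ) - m) ^ (k - m) := by
          gcongr
          rw [← div_eq_mul_inv, div_le_one (by positivity)]
          linarith
        _ = ((n : ℝ) - m) ^ (k - m) := one_mul _
    exact lt_irrefl _ h5

end Pool.Agent.T9h84.FH
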