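import Pool.Agent.T9h84.FracHelly

set_option autoImplicit false

open Finset Module Filter Topology

namespace Pool.Agent.T9h84.Kirch

/-- Euclidean space of dimension `d` -/
abbrev Pt (d : ℕ) : Type := EuclideanSpace ℝ (Fin d)

/-- Some hyperplane `{x | ⟪w, x⟫ = t}`, `w ≠ 0`, separates the finite sets `P` and `Q`: one of them
lies in one of the open half-spaces bounded by it and the other one in the other. -/
def Separated {d : ℕ} (P Q : Finset (Pt d)) : Prop :=
  ∃ (w : Pt d) (t : ℝ), w ≠ 0 ∧ (∀ p ∈ P, t < inner ℝ w p) ∧ ∀ q ∈ Q, inner ℝ w q < t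

/-- General position: all subsets of at most `d + 1` points are affinely independent. -/
def GeneralPosition {d : ℕ} (P : Finset (Pt d)) : Prop :=
  ∀ T : Finset (Pt d), T ⊆ P → #T ≤ d + 1 → AffineIndependent ℝ (fun x : T => (x : Pt d))

/-- the lifted space -/
abbrev V (d : ℕ) : Type := WithLp 2 (Pt d × ℝ)

lemma finrank_V (d : ℕ) : finrank ℝ (V d) = d + 1 := by
  rw [(WithLp.linearEquiv 2 ℝ (Pt d × ℝ)).finrank_eq, finrank_prod]
  simp

variable {d : ℕ}

open Classical in
/-- the sign of a point -/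
noncomputable def sg (A : Finset (Pt d)) (x : Pt d) : ℝ := if x ∈ A then 1 else -1

/-- the lifted half-spaces -/
def C (A : Finset (Pt d)) (x : Pt d) : Set (V d) :=
  {v | 1 ≤ sg A x * (inner ℝ v.fst x - v.snd)}

lemma cont_fst : Continuous (fun v : V d => v.fst) := by
  fun_prop

lemma cont_snd : Continuous (fun v : V d => v.snd) := by
  fun_prop

lemma C_closed (A : Finset (Pt d)) (x : Pt d) : IsClosed (C A x) := by
  refine isClosed_le continuous_const ?_
  refine continuous_const.mul (Continuous.sub ?_ cont_snd)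
  exact (cont_fst).inner continuous_const

lemma C_convex (A : Finset (Pt d)) (x : Pt d) : Convex ℝ (C A x) := by
  intro u hu v hv a b ha hb hab
  simp only [C, Set.mem_ofPred_eq] at hu hv ⊢
  have h1 : (a • u + b • v).fst = a • u.fst + b • v.fst := rfl
  have h2 : (a • u + b • v).snd = a * u.snd + b * v.snd := rfl
  rw [h1, h2, inner_add_left, real_inner_smul_left, real_inner_smul_left]
  have h3 : sg A x * (a * inner ℝ u.fst x + b * inner ℝ v.fst x - (a * u.snd + b * v.snd))
      = a * (sg A x * (inner ℝ u.fst x - u.snd)) + b * (sg A x * (inner ℝ v.fst x - v.snd)) := by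
    ring
  rw [h3]
  calc (1 : ℝ) = a * 1 + b * 1 := by rw [← add_mul, hab, one_mul]
    _ ≤ _ := by gcongr

/-- a nonzero vector -/
lemma exists_ne (hd : 1 ≤ d) : ∃ w : Pt d, w ≠ 0 := by
  refine ⟨EuclideanSpace.single ⟨0, hd⟩ 1, ?_⟩
  intro h
  have := congrArg (fun v : Pt d => v ⟨0, hd⟩) h
  simp at this

/-- an empty set is separated from any finite set -/
lemma separated_empty_left (hd : 1 ≤ d) (Q : Finset (Pt d)) : Separated ∅ Q := by
  obtain ⟨w, hw⟩ := exists_ne hd
  refine ⟨w, ∑ q ∈ Q, |inner ℝ w q| + 1, hw, by simp, fun q hq => ?_⟩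
  have h1 : |inner ℝ w q| ≤ ∑ q ∈ Q, |inner ℝ w q| :=
    single_le_sum (f := fun q => |inner ℝ w q|) (fun i _ => abs_nonneg _) hq
  have := le_abs_self (inner ℝ w q)
  linarith

lemma Separated.symm {P Q : Finset (Pt d)} (h : Separated P Q) : Separated Q P := by
  obtain ⟨w, t, hw, h1, h2⟩ := h
  refine ⟨-w, -t, neg_ne_zero.2 hw, fun p hp => ?_, fun q hq => ?_⟩
  · rw [inner_neg_left]
    linarith [h2 p hp]
  · rw [inner_neg_left]
    linarith [h1 q hq]

/-- a point in all half-spaces separates -/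
lemma separated_of_mem (hd : 1 ≤ d) {A P Q : Finset (Pt d)} (hP : P ⊆ A) (hQ : Disjoint Q A)
    {v : V d} (hvP : ∀ x ∈ P, v ∈ C A x) (hvQ : ∀ x ∈ Q, v ∈ C A x) : Separated P Q := by
  have h1 : ∀ x ∈ P, 1 ≤ inner ℝ v.fst x - v.snd := by
    intro x hx
    have := hvP x hx
    simp only [C, sg, if_pos (hP hx), Set.mem_ofPred_eq, one_mul] at this
    exact this
  have h2 : ∀ x ∈ Q, inner ℝ v.fst x - v.snd ≤ -1 := by
    intro x hx
    have hxA : x ∉ A := fun h => (Finset.disjoint_left.1 hQ) hx h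
    have := hvQ x hx
    simp only [C, sg, if_neg hxA, Set.mem_ofPred_eq] at this
    linarith
  by_cases hw : v.fst = 0
  · -- one of the sets is empty
    rcases P.eq_empty_or_nonempty with rfl | ⟨p, hp⟩
    · exact separated_empty_left hd Q
    · rcases Q.eq_empty_or_nonempty with rfl | ⟨q, hq⟩
      · exact (separated_empty_left hd P).symm
      · have e1 := h1 p hp
        have e2 := h2 q hq
        rw [hw, inner_zero_left] at e1 e2
        linarith
  · refine ⟨v.fst, v.snd, hw, fun p hp => ?_, fun q hq => ?_⟩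
    · linarith [h1 p hp]
    · linarith [h2 q hq]

/-- separated sets give a point in all half-spaces -/
lemma exists_mem_of_separated {A P Q : Finset (Pt d)} (hP : P ⊆ A) (hQ : Disjoint Q A)
    (h : Separated P Q) : ∃ v : V d, (∀ x ∈ P, v ∈ C A x) ∧ ∀ x ∈ Q, v ∈ C A x := by
  obtain ⟨w, t, -, h1, h2⟩ := h
  -- the margin
  have hmar : ∃ δ : ℝ, 0 < δ ∧ (∀ p ∈ P, δ ≤ inner ℝ w p - t) ∧ ∀ q ∈ Q, δ ≤ t - inner ℝ w q := by
    obtain ⟨δ₁, hδ₁, h3⟩ : ∃ δ : ℝ, 0 < δ ∧ ∀ p ∈ P, δ ≤ inner ℝ w p - t := by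
      rcases P.eq_empty_or_nonempty with rfl | hne
      · exact ⟨1, one_pos, by simp⟩
      · obtain ⟨p, hp, hmin⟩ := exists_min_image P (fun p => inner ℝ w p - t) hne
        exact ⟨_, sub_pos.2 (h1 p hp), hmin⟩
    obtain ⟨δ₂, hδ₂, h4⟩ : ∃ δ : ℝ, 0 < δ ∧ ∀ q ∈ Q, δ ≤ t - inner ℝ w q := by
      rcases Q.eq_empty_or_nonempty with rfl | hne
      · exact ⟨1, one_pos, by simp⟩
      · obtain ⟨p, hp, hmin⟩ := exists_min_image Q (fun q => t - inner ℝ w q) hne
        exact ⟨_, sub_pos.2 (h2 p hp), hmin⟩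
    exact ⟨min δ₁ δ₂, lt_min hδ₁ hδ₂, fun p hp => (min_le_left _ _).trans (h3 p hp),
      fun q hq => (min_le_right _ _).trans (h4 q hq)⟩
  obtain ⟨δ, hδ, h3, h4⟩ := hmar
  refine ⟨WithLp.toLp 2 (δ⁻¹ • w, δ⁻¹ * t), fun x hx => ?_, fun x hx => ?_⟩
  · simp only [C, sg, if_pos (hP hx), Set.mem_ofPred_eq, one_mul, WithLp.toLp_fst, WithLp.toLp_snd,
      real_inner_smul_left]
    rw [← mul_sub, ← div_eq_inv_mul, le_div_iff₀ hδ, one_mul]
    exact h3 x hx
  · have hxA : x ∉ A := fun h => (Finset.disjoint_left.1 hQ) hx h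
    simp only [C, sg, if_neg hxA, Set.mem_ofPred_eq, WithLp.toLp_fst, WithLp.toLp_snd,
      real_inner_smul_left]
    rw [← mul_sub, neg_one_mul, ← mul_neg, neg_sub, ← div_eq_inv_mul, le_div_iff₀ hδ, one_mul]
    exact h4 x hx

open Classical in
/-- a subset is good if and only if its half-spaces intersect -/
lemma good_iff (hd : 1 ≤ d) {A B S : Finset (Pt d)} (hAB : Disjoint A B) (hS : S ⊆ A ∪ B) :
    Separated (A ∩ S) (B ∩ S) ↔ (⋂ x ∈ S, C A x).Nonempty := by
  have hP : A ∩ S ⊆ A := inter_subset_left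
  have hQ : Disjoint (B ∩ S) A := (disjoint_of_subset_left inter_subset_left hAB.symm)
  constructor
  · intro h
    obtain ⟨v, h1, h2⟩ := exists_mem_of_separated hP hQ h
    refine ⟨v, ?_⟩
    simp only [Set.mem_iInter]
    intro x hx
    rcases mem_union.1 (hS hx) with hA | hB
    · exact h1 x (mem_inter.2 ⟨hA, hx⟩)
    · exact h2 x (mem_inter.2 ⟨hB, hx⟩)
  · rintro ⟨v, hv⟩
    simp only [Set.mem_iInter] at hv
    exact separated_of_mem hd hP hQ (fun x hx => hv x (mem_inter.1 hx).2)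
      (fun x hx => hv x (mem_inter.1 hx).2)

open Classical in
/-- affinely independent points -/
lemma separated_of_affineIndependent (hd : 1 ≤ d) {A B : Finset (Pt d)} (hAB : Disjoint A B)
    (h : AffineIndependent ℝ (fun x : ((A ∪ B : Finset (Pt d))) => (x : Pt d))) :
    Separated A B := by
  have h1 : convexHull ℝ (A : Set (Pt d)) ∩ convexHull ℝ (B : Set (Pt d)) = ∅ := by
    have h2 := AffineIndependent.convexHull_inter (R := ℝ) (s := A ∪ B) h (t₁ := A) (t₂ := B)
      subset_union_left subset_union_right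
    rw [← h2, ← coe_inter, disjoint_iff_inter_eq_empty.1 hAB]
    simp
  have hd1 : Disjoint (convexHull ℝ (B : Set (Pt d))) (convexHull ℝ (A : Set (Pt d))) := by
    rw [Set.disjoint_iff_inter_eq_empty, Set.inter_comm]
    exact h1
  obtain ⟨f, u, v, h3, h4, h5⟩ := geometric_hahn_banach_compact_closed (convex_convexHull ℝ _)
    (B.finite_toSet.isCompact_convexHull (𝕜 := ℝ)) (convex_convexHull ℝ _)
    (A.finite_toSet.isCompact_convexHull (𝕜 := ℝ)).isClosed hd1
  set w := (InnerProductSpace.toDual ℝ (Pt d)).symm f with hw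
  have hfw : ∀ x, inner ℝ w x = f x := fun x => InnerProductSpace.toDual_symm_apply
  by_cases hw0 : w = 0
  · rcases A.eq_empty_or_nonempty with rfl | ⟨p, hp⟩
    · exact separated_empty_left hd B
    · rcases B.eq_empty_or_nonempty with rfl | ⟨q, hq⟩
      · exact (separated_empty_left hd A).symm
      · have e1 := h5 p (subset_convexHull ℝ _ hp)
        have e2 := h3 q (subset_convexHull ℝ _ hq)
        rw [← hfw, hw0, inner_zero_left] at e1 e2
        linarith
  · refine ⟨w, u, hw0, fun p hp => ?_, fun q hq => ?_⟩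
    · rw [hfw]
      exact h4.trans (h5 p (subset_convexHull ℝ _ hp))
    · rw [hfw]
      exact h3 q (subset_convexHull ℝ _ hq)

end Pool.Agent.T9h84.Kirch
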